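import Mathlib

/-! A diagonalizable third Askey-Wilson element that does not give a Leonard triple. -/

set_option autoImplicit false

namespace Pool.Agent.Results.MP_b3a6b1_al.DiagNotTriple

open Matrix

section defs
variable {K : Type} [Field K] {n : ℕ}

/-- Irreducible tridiagonal matrices. -/
def IrrTri (M : Matrix (Fin n) (Fin n) K) : Prop :=
  ∀ i j : Fin n, ((i : ℕ) + 1 < j ∨ (j : ℕ) + 1 < i → M i j = 0) ∧
    ((i : ℕ) + 1 = j ∨ (j : ℕ) + 1 = i → M i j ≠ 0)

/-- The matrix of the map `M` in the basis formed by the columns of `P`. -/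
def inB (P : (Matrix (Fin n) (Fin n) K)ˣ) (M : Matrix (Fin n) (Fin n) K) :
    Matrix (Fin n) (Fin n) K := P⁻¹.val * M * P.val

def LeonardPair (A B : Matrix (Fin n) (Fin n) K) : Prop :=
  (∃ P, (inB P A).IsDiag ∧ IrrTri (inB P B)) ∧ ∃ P, (inB P B).IsDiag ∧ IrrTri (inB P A)

def LeonardTriple (A B C : Matrix (Fin n) (Fin n) K) : Prop :=
  (∃ P, (inB P A).IsDiag ∧ IrrTri (inB P B) ∧ IrrTri (inB P C)) ∧
    (∃ P, (inB P B).IsDiag ∧ IrrTri (inB P A) ∧ IrrTri (inB P C)) ∧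
      ∃ P, (inB P C).IsDiag ∧ IrrTri (inB P A) ∧ IrrTri (inB P B)

/-- The Askey-Wilson relations for the ordered pair `B, C`. -/
def AW (B C : Matrix (Fin n) (Fin n) K) : Prop :=
  ∃ β γ γ' ϱ ϱ' ω η η' : K,
    B * B * C - β • (B * C * B) + C * B * B - γ • (B * C + C * B) - ϱ • C =
        γ' • (B * B) + ω • B + η • (1 : Matrix (Fin n) (Fin n) K) ∧
      C * C * B - β • (C * B * C) + B * C * C - γ' • (C * B + B * C) - ϱ' • B =
        γ • (C * C) + ω • C + η' • (1 : Matrix (Fin n) (Fin n) K)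

/-- `M` lies in the span of `I, S, T, ST, TS`. -/
def InSpan (M S T : Matrix (Fin n) (Fin n) K) : Prop :=
  M ∈ Submodule.span K {1, S, T, S * T, T * S}

end defs

abbrev Mt := Matrix (Fin 3) (Fin 3) ℚ
def A : Mt := !![-2, 0, 0; 1, -1, 0; 0, 1, 1]
def B : Mt := !![-2, -4, 0; 0, 0, -4; 0, 0, 1]
def C : Mt := A + B
def P1 : Mtˣ := ⟨!![3, 0, 0; -3, -2, 0; 1, 1, 1], !![1/3, 0, 0; -1/2, -1/2, 0; 1/6, 1/2, 1],
  by decide +kernel, by decide +kernel⟩
def P2 : Mtˣ := ⟨!![1, -2, 16/3; 0, 1, -4; 0, 0, 1], !![1, 2, 8/3; 0, 1, 4; 0, 0, 1],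
  by decide +kernel, by decide +kernel⟩
def P3 : Mtˣ := ⟨!![8, 4, 2; -4, -3, -2; 1, 1, 1], !![1/2, 1, 1; -1, -3, -4; 1/2, 2, 4],
  by decide +kernel, by decide +kernel⟩

instance (M : Mt) : Decidable (IrrTri M) := by unfold IrrTri; infer_instance
instance (M : Mt) : Decidable M.IsDiag := by unfold IsDiag Pairwise; infer_instance

theorem inB_mul (P : Mtˣ) (M N : Mt) : inB P (M * N) = inB P M * inB P N := by
  simp [inB, mul_assoc]

theorem inB_sub (P : Mtˣ) (M : Mt) (c : ℚ) : inB P (M - c • 1) = inB P M - c • 1 := by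
  simp [inB, mul_sub, sub_mul]

theorem inB_eq_zero (P : Mtˣ) (M : Mt) : inB P M = 0 ↔ M = 0 := by
  rw [inB, Units.mul_left_eq_zero, Units.mul_right_eq_zero]

theorem not_tri (P : Mtˣ) (hD : (inB P C).IsDiag) : ¬IrrTri (inB P A) := fun hT => by
  obtain ⟨a, b, c, e⟩ : ∃ a b c, inB P C = !![a, 0, 0; 0, b, 0; 0, 0, c] :=
    ⟨inB P C 0 0, inB P C 1 1, inB P C 2 2, by
      ext i j; fin_cases i <;> fin_cases j <;> first | rfl | exact hD (by decide)⟩
  have h1 : (C - b • 1) * (C - c • 1) * A * (C - a • 1) * (C - b • 1) = 0 := by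
    rw [← inB_eq_zero P]
    simp only [inB_mul, inB_sub, e]
    have := (hT 0 2).1 (by decide)
    ext i j
    fin_cases i <;> fin_cases j <;> simp [mul_apply, Fin.sum_univ_three, this]
  have h2 := (inB_eq_zero P _).2
    (show (C - (-2 : ℚ) • 1) * (C - (-1 : ℚ) • 1) * C = 0 by decide +kernel)
  have h3 : (inB P C).trace = -3 := by
    rw [inB, trace_mul_cycle, Units.mul_inv, one_mul]; decide +kernel
  have h4 : (inB P (C * C)).trace = 5 := by
    rw [inB, trace_mul_cycle, Units.mul_inv, one_mul]; decide +kernel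
  simp only [inB_mul, inB_sub, e] at h2 h3 h4
  have a0 := congrFun (congrFun h2 0) 0
  have a1 := congrFun (congrFun h2 1) 1
  have a2 := congrFun (congrFun h2 2) 2
  simp [mul_apply, Fin.sum_univ_three, trace, add_eq_zero_iff_eq_neg, or_assoc] at a0 a1 a2 h3 h4
  rcases a0 with rfl | rfl | rfl <;> rcases a1 with rfl | rfl | rfl <;>
    rcases a2 with rfl | rfl | rfl <;> revert h1 h3 h4 <;> decide +kernel

theorem result : ∃ (K : Type) (_ : Field K) (A B C : Matrix (Fin 3) (Fin 3) K),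
    LeonardPair A B ∧ InSpan C A B ∧ InSpan A B C ∧ InSpan B C A ∧ AW A B ∧ AW B C ∧ AW C A ∧
      (∃ P, (inB P C).IsDiag) ∧ ¬LeonardTriple A B C := by
  refine ⟨ℚ, inferInstance, A, B, C, ⟨⟨P1, by decide +kernel⟩, P2, by decide +kernel⟩, ?_, ?_, ?_,
    ⟨-1, -2, -1, 1, 2, -5, 0, -2, by decide +kernel⟩,
    ⟨-1, -1, -3, 2, -2, -1, -2, -4, by decide +kernel⟩,
    ⟨-1, -3, -2, -2, 1, -3, 4, 6, by decide +kernel⟩, ⟨P3, by decide +kernel⟩,
    fun ⟨_, _, P, h⟩ => not_tri P h.1 h.2.1⟩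
  · exact add_mem (Submodule.subset_span (by simp)) (Submodule.subset_span (by simp))
  · rw [show A = C - B by simp [C]]
    exact sub_mem (Submodule.subset_span (by simp)) (Submodule.subset_span (by simp))
  · rw [InSpan, show B = C - A by simp [C]]
    exact sub_mem (Submodule.subset_span (by simp)) (Submodule.subset_span (by simp))

end Pool.Agent.Results.MP_b3a6b1_al.DiagNotTriple
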